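import Pool.Agent.U591.HS.Cube

/-!
# Hollow solids: the shell between a cube and a non-ellipsoidal cavity has constant potential there
-/

set_option autoImplicit false

open MeasureTheory Set Filter Topology Metric
open scoped RealInnerProductSpace ENNReal

namespace Pool.Agent.U591.HS

open Pool.Agent.Helper557.TFP

lemma null_coord : ∀ᵐ x : E3, ∀ i, x i ≠ 0 := by
  rw [ae_all_iff]
  intro i
  rw [ae_iff]
  have h1 : {a : E3 | ¬ a i ≠ 0} = (LinearMap.ker (EuclideanSpace.proj i : E3 →L[ℝ] ℝ).toLinearMap : Set E3) := by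
    ext a
    simp
  rw [h1]
  apply Measure.addHaar_submodule
  intro htop
  have h2 : (EuclideanSpace.single i (1:ℝ) : E3) ∈
      LinearMap.ker (EuclideanSpace.proj i : E3 →L[ℝ] ℝ).toLinearMap := by
    rw [htop]; trivial
  simp at h2

/-- the open box with corner `x` -/
lemma box_open (x : E3) : IsOpen {y : E3 | ∀ i, |y i| < |x i|} := by
  have : {y : E3 | ∀ i, |y i| < |x i|} = ⋂ i : Fin 3, {y : E3 | |y i| < |x i|} := by
    ext y; simp
  rw [this]
  exact isOpen_iInter_of_finite fun i => isOpen_lt (by fun_prop) continuous_const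

theorem exists_cavity : ∃ (T : Set E3) (c : ℝ), Star T ∧ closure T ⊆ cube ∧
    ∀ P ∈ T, ∫ M in cube \ closure T, (dist P M)⁻¹ = c := by
  -- the level
  obtain ⟨c, hc0, hcm, hcf⟩ : ∃ c : ℝ, 0 < c ∧ c < pot chi 0 ∧
      ∀ (i : Fin 3) (s : ℝ), (s = 1 ∨ s = -1) → pot chi (EuclideanSpace.single i s) < c := by
    set m : Fin 3 → ℝ := fun i => max (pot chi (EuclideanSpace.single i 1))
      (pot chi (EuclideanSpace.single i (-1))) with hm
    set M : ℝ := max (max (m 0) (m 1)) (m 2) with hM
    have hmM : ∀ i, m i ≤ M := by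
      intro i
      fin_cases i
      · exact (le_max_left _ _).trans (le_max_left _ _)
      · exact (le_max_right _ _).trans (le_max_left _ _)
      · exact le_max_right _ _
    have hmlt : ∀ i, m i < pot chi 0 := fun i =>
      max_lt (chi_lt i (Or.inl rfl)) (chi_lt i (Or.inr rfl))
    have hMlt : M < pot chi 0 := max_lt (max_lt (hmlt 0) (hmlt 1)) (hmlt 2)
    have hnn : 0 ≤ pot chi (EuclideanSpace.single 0 1) :=
      integral_nonneg fun y => div_nonneg (chi_nonneg y) (norm_nonneg _)
    have hM0 : 0 ≤ M := hnn.trans ((le_max_left _ _).trans (hmM 0))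
    refine ⟨(M + pot chi 0) / 2, by linarith, by linarith, ?_⟩
    intro i s hs
    have h1 : pot chi (EuclideanSpace.single i s) ≤ m i := by
      rcases hs with rfl | rfl
      · exact le_max_left _ _
      · exact le_max_right _ _
    have := hmM i
    linarith
  obtain ⟨f, hf⟩ := exists_obst cube_open.measurableSet cube_fin c
  have hfN := hf.nice cube_bdd
  have hVc := pot_continuous hfN
  have hVle := hf.pot_le cube_bdd hc0
  have hbox : ∀ {x y : E3}, (∀ i, |y i| ≤ |x i|) → pot f x ≤ pot f y := fun h =>
    (hf.refl hc0).box h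
  have hVchi : ∀ x, pot f x ≤ pot chi x := by
    intro x
    obtain ⟨b1, hb1⟩ := nice_bound _ hfN
    obtain ⟨b2, hb2⟩ := nice_bound _ chi_nice
    refine integral_mono (hb1 x).1 (hb2 x).1 fun y => ?_
    have : f y ≤ chi y := by
      by_cases hy : y ∈ cube
      · rw [chi_mem hy]; exact hf.le_one y
      · rw [chi_notMem hy, hf.zero y hy]
    exact div_le_div_of_nonneg_right this (norm_nonneg _)
  set Z : Set E3 := {x | pot f x = c} with hZ
  have hZcl : IsClosed Z := isClosed_eq hVc continuous_const
  have hZbox : ∀ {x y : E3}, x ∈ Z → (∀ i, |y i| ≤ |x i|) → y ∈ Z := by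
    intro x y hx h
    exact le_antisymm (hVle y) ((show pot f x = c from hx) ▸ hbox h)
  have hZint : ∀ {x y : E3}, x ∈ Z → (∀ i, |y i| < |x i|) → y ∈ interior Z := by
    intro x y hx h
    rw [mem_interior]
    exact ⟨_, fun z hz => hZbox hx (fun i => (hz i).le), box_open x, h⟩
  have hZcube : Z ⊆ cube := by
    intro x hx
    by_contra hcon
    have : ∃ i, 1 ≤ |x i| := by
      by_contra hno
      push Not at hno
      exact hcon hno
    obtain ⟨i, hi⟩ := this
    have h1 : pot f x = c := hx
    have h2 := hVchi x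
    have h3 : pot chi x ≤ pot chi (EuclideanSpace.single i 1) := by
      refine chi_refl.box fun j => ?_
      rw [single_apply']
      split_ifs with hj
      · rw [hj]; simpa using hi
      · simp
    have h4 := hcf i 1 (Or.inl rfl)
    linarith
  have hZpos : volume Z ≠ 0 := by
    intro h0
    have h1 : ∀ᵐ x, x ∉ Z := by
      rw [ae_iff]
      simpa using h0
    have h2 : pot f 0 = pot chi 0 := by
      unfold pot
      refine integral_congr_ae ?_
      filter_upwards [h1, hf.low] with y hy1 hy2
      congr 1
      by_cases hy : y ∈ cube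
      · rw [chi_mem hy]
        exact hy2 hy (lt_of_le_of_ne (hVle y) hy1)
      · rw [chi_notMem hy, hf.zero y hy]
    have h3 := hVle 0
    linarith
  set T : Set E3 := interior Z with hT
  have hTZ : closure T ⊆ Z := closure_minimal interior_subset hZcl
  have hstar : Star T := by
    refine ⟨isOpen_interior, cube_bdd.subset (interior_subset.trans hZcube), ?_, ?_⟩
    · obtain ⟨x, hxZ, hx0⟩ : ∃ x ∈ Z, ∀ i, x i ≠ 0 := by
        by_contra hno
        push Not at hno
        apply hZpos
        have h1 : Z ⊆ {x : E3 | ¬ ∀ i, x i ≠ 0} := by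
          intro x hx
          obtain ⟨i, hi⟩ := hno x hx
          intro h
          exact h i hi
        exact measure_mono_null h1 (ae_iff.1 null_coord)
      exact hZint hxZ fun i => by simpa using hx0 i
    · intro x hx t ht0 ht1
      -- find a point with larger coordinates
      have hO : IsOpen {p : E3 | ∀ i, x i ≠ 0 → t * |x i| < |p i|} := by
        have : {p : E3 | ∀ i, x i ≠ 0 → t * |x i| < |p i|} =
            ⋂ i : Fin 3, {p : E3 | x i ≠ 0 → t * |x i| < |p i|} := by
          ext y; simp
        rw [this]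
        refine isOpen_iInter_of_finite fun i => ?_
        by_cases hxi : x i ≠ 0
        · have : {p : E3 | x i ≠ 0 → t * |x i| < |p i|} = {p : E3 | t * |x i| < |p i|} := by
            ext p
            exact ⟨fun h => h hxi, fun h _ => h⟩
          rw [this]
          exact isOpen_lt continuous_const (by fun_prop)
        · have : {p : E3 | x i ≠ 0 → t * |x i| < |p i|} = univ := by
            ext p
            exact ⟨fun _ => trivial, fun _ h => absurd h hxi⟩
          rw [this]
          exact isOpen_univ
      have hxO : x ∈ {p : E3 | ∀ i, x i ≠ 0 → t * |x i| < |p i|} := by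
        intro i hi
        have : 0 < |x i| := abs_pos.2 hi
        nlinarith
      obtain ⟨q, hqO, hqT⟩ := mem_closure_iff.1 hx _ hO hxO
      have hW : IsOpen ({p : E3 | ∀ i, x i ≠ 0 → t * |x i| < |p i|} ∩ T) := hO.inter isOpen_interior
      obtain ⟨p, ⟨hpO, hpT⟩, hp0⟩ : ∃ p ∈ ({p : E3 | ∀ i, x i ≠ 0 → t * |x i| < |p i|} ∩ T),
          ∀ i, p i ≠ 0 := by
        by_contra hno
        push Not at hno
        have h1 := hW.measure_pos volume ⟨q, hqO, hqT⟩
        have h2 : ({p : E3 | ∀ i, x i ≠ 0 → t * |x i| < |p i|} ∩ T) ⊆ {x : E3 | ¬ ∀ i, x i ≠ 0} := by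
          intro y hy
          obtain ⟨i, hi⟩ := hno y hy
          intro h
          exact h i hi
        rw [measure_mono_null h2 (ae_iff.1 null_coord)] at h1
        exact lt_irrefl _ h1
      refine hZint (interior_subset hpT) fun i => ?_
      rw [PiLp.smul_apply, smul_eq_mul, abs_mul, abs_of_nonneg ht0]
      by_cases hxi : x i = 0
      · rw [hxi, abs_zero, mul_zero]
        exact abs_pos.2 (hp0 i)
      · exact hpO i hxi
  refine ⟨T, c, hstar, hTZ.trans hZcube, ?_⟩
  have hzero := zero_of_const hfN hstar.op (c := c) fun x hx => (interior_subset hx : x ∈ Z)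
  have hfr : ∀ᵐ x, x ∉ frontier T := by
    rw [ae_iff]
    simpa using hstar.null
  have hae : ∀ᵐ x, f x = (cube \ closure T).indicator (fun _ => (1:ℝ)) x := by
    filter_upwards [hf.low, hzero, hfr, null_coord] with x h1 h2 h3 h4
    by_cases hx : x ∈ cube \ closure T
    · rw [indicator_of_mem hx]
      refine h1 hx.1 (lt_of_le_of_ne (hVle x) fun hxc => hx.2 ?_)
      -- `x ∈ Z` with nonzero coordinates belongs to the closure of the interior
      have hlim : Tendsto (fun t : ℝ => t • x) (𝓝[<] 1) (𝓝 ((1:ℝ) • x)) := by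
        have : Continuous (fun t : ℝ => t • x) := by fun_prop
        exact (this.tendsto 1).mono_left nhdsWithin_le_nhds
      rw [one_smul] at hlim
      refine mem_closure_of_tendsto hlim ?_
      filter_upwards [Ico_mem_nhdsLT (show (0:ℝ) < 1 by norm_num)] with t ht
      refine hZint (x := x) hxc fun i => ?_
      have := abs_pos.2 (h4 i)
      rw [PiLp.smul_apply, smul_eq_mul, abs_mul, abs_of_nonneg ht.1]
      nlinarith [ht.2]
    · rw [indicator_of_notMem hx]
      by_cases hxc : x ∈ cube
      · have hxcl : x ∈ closure T := by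
          by_contra hno
          exact hx ⟨hxc, hno⟩
        have hxT : x ∈ T := by
          by_contra hno
          apply h3
          rw [hstar.op.frontier_eq]
          exact ⟨hxcl, hno⟩
        exact h2 hxT
      · exact hf.zero x hxc
  intro P hP
  have hPc : pot f P = c := (interior_subset hP : P ∈ Z)
  rw [← hPc]
  have hm : MeasurableSet (cube \ closure T) :=
    cube_open.measurableSet.diff isClosed_closure.measurableSet
  rw [← integral_indicator hm]
  unfold pot
  refine integral_congr_ae ?_
  filter_upwards [hae] with y hy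
  rw [hy]
  by_cases hyI : y ∈ cube \ closure T
  · rw [indicator_of_mem hyI, indicator_of_mem hyI, one_div, dist_eq_norm]
  · rw [indicator_of_notMem hyI, indicator_of_notMem hyI, zero_div]

/-- The boundary of the cube is not the image of the unit sphere under an affine bijection. -/
theorem cube_not_ellipsoid (g : E3 ≃ᵃ[ℝ] E3) :
    frontier cube ≠ g '' sphere (0 : E3) 1 := by
  intro heq
  have hmem : ∀ r : ℝ, |r| ≤ 1 → (!₂[1, r, 0] : E3) ∈ g '' sphere (0:E3) 1 := by
    intro r hr
    rw [← heq]
    refine cube_frontier (fun i => ?_) ⟨0, by simp⟩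
    fin_cases i
    · simp
    · simpa using hr
    · simp
  obtain ⟨p, hp, hgp⟩ := hmem 1 (by norm_num)
  obtain ⟨q, hq, hgq⟩ := hmem (-1) (by norm_num)
  obtain ⟨r, hr, hgr⟩ := hmem 0 (by norm_num)
  rw [mem_sphere_zero_iff_norm] at hp hq hr
  have hmid : midpoint ℝ (g p) (g q) = g r := by
    rw [hgp, hgq, hgr, midpoint_eq_smul_add]
    ext i
    fin_cases i <;> simp <;> norm_num
  rw [← AffineEquiv.map_midpoint] at hmid
  have hr2 := g.injective hmid
  have hpq : p ≠ q := by
    rintro rfl
    rw [hgp] at hgq
    have := congrArg (fun v : E3 => v 1) hgq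
    simp at this
    norm_num at this
  have h1 := parallelogram_law_with_norm ℝ p q
  rw [hp, hq] at h1
  have h2 : ‖r‖ = ‖p + q‖ / 2 := by
    rw [← hr2, midpoint_eq_smul_add, norm_smul]
    norm_num
    ring
  have h3 : 0 < ‖p - q‖ := norm_pos_iff.2 (sub_ne_zero.2 hpq)
  rw [hr] at h2
  have h4 : ‖p + q‖ = 2 := by linarith
  rw [h4] at h1
  nlinarith

end Pool.Agent.U591.HS
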