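import Pool.Agent.Helper557.TF.Diatomic

/-!
# Hollow solids: basic facts on Coulomb potentials of bounded densities
-/

set_option autoImplicit false

open MeasureTheory Set Filter Topology Metric
open scoped RealInnerProductSpace ENNReal

namespace Pool.Agent.U591.HS

open Pool.Agent.Helper557.TFP

lemma nice_of_bdd {U : Set E3} (hU : Bornology.IsBounded U) {f : E3 → ℝ} (hm : Measurable f)
    {B : ℝ} (hB : ∀ x, |f x| ≤ B) (h0 : ∀ x, x ∉ U → f x = 0) : Nice f := by
  obtain ⟨R, hR⟩ := hU.subset_closedBall (0 : E3)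
  have hB0 : 0 ≤ B := (abs_nonneg _).trans (hB 0)
  have key : ∀ C : ℝ, Integrable ((closedBall (0:E3) R).indicator (fun _ => C)) := by
    intro C
    rw [integrable_indicator_iff measurableSet_closedBall]
    exact integrableOn_const (by exact (isCompact_closedBall (0:E3) R).measure_lt_top.ne)
  have hz : ∀ x, x ∉ closedBall (0:E3) R → f x = 0 := fun x hx => h0 x fun hxU => hx (hR hxU)
  refine ⟨hm, ?_, ?_⟩
  · refine (key B).mono' hm.aestronglyMeasurable (Eventually.of_forall fun x => ?_)
    by_cases hx : x ∈ closedBall (0:E3) R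
    · rw [indicator_of_mem hx]; exact hB x
    · rw [indicator_of_notMem hx, hz x hx]; simp
  · refine (key (B ^ (5/3 : ℝ))).mono' (hm.abs.pow_const _).aestronglyMeasurable
      (Eventually.of_forall fun x => ?_)
    have h1 : ‖|f x| ^ (5/3 : ℝ)‖ = |f x| ^ (5/3 : ℝ) :=
      Real.norm_of_nonneg (Real.rpow_nonneg (abs_nonneg _) _)
    rw [h1]
    by_cases hx : x ∈ closedBall (0:E3) R
    · rw [indicator_of_mem hx]
      exact Real.rpow_le_rpow (abs_nonneg _) (hB x) (by norm_num)
    · rw [indicator_of_notMem hx, hz x hx]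
      simp

lemma pot_continuous {g : E3 → ℝ} (hg : Nice g) : Continuous (pot g) := by
  obtain ⟨B, hB⟩ := nice_bound g hg
  rw [Metric.continuous_iff]
  intro x ε hε
  obtain ⟨η, hη, h⟩ := nice_modulus g hg (ε/2) (by positivity)
  refine ⟨η, hη, fun x' hx' => ?_⟩
  rw [dist_eq_norm] at hx'
  obtain ⟨h1, h2⟩ := h x' x hx'
  have e : pot g x' - pot g x = ∫ y, g y * (1 / ‖x' - y‖ - 1 / ‖x - y‖) := by
    unfold pot
    rw [← integral_sub (hB x').1 (hB x).1]
    congr 1
    funext y
    ring
  rw [Real.dist_eq, e]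
  have h3 : |∫ y, g y * (1 / ‖x' - y‖ - 1 / ‖x - y‖)| ≤
      ∫ y, |g y| * |1 / ‖x' - y‖ - 1 / ‖x - y‖| := by
    refine (abs_integral_le_integral_abs).trans (le_of_eq ?_)
    congr 1
    funext y
    rw [abs_mul]
  linarith

lemma pot_abs_le {g : E3 → ℝ} (x : E3) : |pot g x| ≤ ∫ y, |g y| / ‖x - y‖ := by
  refine (abs_integral_le_integral_abs).trans (le_of_eq ?_)
  congr 1
  funext y
  rw [abs_div, abs_of_nonneg (norm_nonneg (x - y))]

lemma pot_decay {g : E3 → ℝ} (hg : Nice g) {ε : ℝ} (hε : 0 < ε) :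
    ∃ M : ℝ, ∀ x : E3, M ≤ ‖x‖ → |pot g x| ≤ ε := by
  obtain ⟨M, hM⟩ := nice_decay g hg ε hε
  exact ⟨M, fun x hx => (pot_abs_le x).trans (hM x hx)⟩

/-- A set on which a potential takes its maximum over an open set `W` cannot be nonempty and
compact, if the density is nonpositive near its points. -/
lemma max_false {G : E3 → ℝ} (hG : Nice G) {W : Set E3} {m : ℝ} (hle : ∀ x ∈ W, pot G x ≤ m)
    (hne : ({x | x ∈ W ∧ pot G x = m}).Nonempty) (hcp : IsCompact {x | x ∈ W ∧ pot G x = m})
    (hloc : ∀ x ∈ W, pot G x = m → ∃ r > 0, ball x r ⊆ W ∧ ∀ᵐ y, y ∈ ball x r → G y ≤ 0) :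
    False := by
  obtain ⟨x, ⟨hxW, hxm⟩, hmax⟩ := hcp.exists_isMaxOn hne (f := fun x : E3 => ‖x‖)
    continuous_norm.continuousOn
  obtain ⟨r, hr, hball, hneg⟩ := hloc x hxW hxm
  have hN : Nice (fun y => -(G y)) := TF_hsub_nice_neg G hG
  obtain ⟨hint, hle2⟩ := avg_pot (fun y => -(G y)) hN x r hr (by
    filter_upwards [hneg] with y hy hyb
    have := hy hyb
    linarith)
  have e1 : ∀ z, pot (fun y => -(G y)) z = - pot G z := fun z => TF_hsub_pot_neg G z
  have hfun : pot (fun y => -(G y)) = fun z => - pot G z := funext e1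
  rw [hfun] at hint hle2
  simp only [] at hle2
  rw [integral_neg] at hle2
  have hle2 : -∫ (a : E3) in ball x r, pot G a ≤ (volume (ball x r)).toReal * (- m) := by
    rw [← hxm]; exact hle2
  -- integral of m - pot G over the ball is nonpositive
  have hintG : IntegrableOn (pot G) (ball x r) := by
    have := hint.neg
    refine this.congr (Eventually.of_forall fun z => ?_)
    simp
  have hvol : (volume (ball x r)) ≠ ⊤ := measure_ball_lt_top.ne
  have hcI : Integrable (fun _ : E3 => m) (volume.restrict (ball x r)) := by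
    have : IsFiniteMeasure (volume.restrict (ball x r)) := ⟨by
      rw [Measure.restrict_apply_univ]; exact hvol.lt_top⟩
    exact integrable_const m
  have hI : ∫ z in ball x r, (m - pot G z) = (volume (ball x r)).toReal * m - ∫ z in ball x r, pot G z := by
    rw [integral_sub hcI hintG, setIntegral_const]
    simp [Measure.real]
  have hI0 : ∫ z in ball x r, (m - pot G z) = 0 := by
    refine le_antisymm ?_ ?_
    · rw [hI]; linarith
    · refine setIntegral_nonneg measurableSet_ball fun z hz => ?_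
      linarith [hle z (hball hz)]
  have hae : ∀ᵐ z ∂(volume.restrict (ball x r)), m - pot G z = 0 := by
    have h2 : (fun z => m - pot G z) =ᵐ[volume.restrict (ball x r)] 0 := by
      rw [← integral_eq_zero_iff_of_nonneg_ae]
      · exact hI0
      · rw [EventuallyLE, ae_restrict_iff' measurableSet_ball]
        exact Eventually.of_forall fun z hz => by
          have := hle z (hball hz)
          simp only [Pi.zero_apply]
          linarith
      · exact hcI.sub hintG
    exact h2
  -- by continuity everywhere on the ball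
  have hall : ∀ z ∈ ball x r, pot G z = m := by
    intro z hz
    by_contra hzm
    have hopen : IsOpen (ball x r ∩ {w | pot G w ≠ m}) :=
      isOpen_ball.inter (isOpen_ne_fun (pot_continuous hG) continuous_const)
    have hpos : 0 < volume (ball x r ∩ {w | pot G w ≠ m}) := hopen.measure_pos _ ⟨z, hz, hzm⟩
    rw [ae_restrict_iff' measurableSet_ball, ae_iff] at hae
    have : volume (ball x r ∩ {w | pot G w ≠ m}) ≤ volume {a | ¬(a ∈ ball x r → m - pot G a = 0)} := by
      refine measure_mono ?_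
      rintro w ⟨hw1, hw2⟩
      simp only [mem_ofPred_eq]
      intro h
      exact hw2 (by linarith [h hw1])
    rw [hae] at this
    exact absurd (lt_of_lt_of_le hpos this) (lt_irrefl _)
  -- a point of larger norm
  obtain ⟨e, he, hxe⟩ : ∃ e : E3, ‖e‖ = 1 ∧ 0 ≤ ⟪x, e⟫ := by
    refine ⟨if 0 ≤ ⟪x, EuclideanSpace.single 0 (1:ℝ)⟫ then EuclideanSpace.single 0 (1:ℝ) else
      -EuclideanSpace.single 0 (1:ℝ), ?_, ?_⟩
    · split_ifs <;> simp
    · split_ifs with h
      · exact h
      · rw [inner_neg_right]; push Not at h; linarith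
  set z := x + (r/2) • e with hz
  have hzb : z ∈ ball x r := by
    rw [mem_ball, dist_eq_norm, hz, add_sub_cancel_left, norm_smul, he, Real.norm_of_nonneg (by positivity)]
    linarith
  have h1 : ‖z‖ ≤ ‖x‖ := hmax ⟨hball hzb, hall z hzb⟩
  have h2 : ‖z‖ ^ 2 = ‖x‖ ^ 2 + 2 * (r/2) * ⟪x, e⟫ + (r/2)^2 := by
    rw [hz, norm_add_sq_real, norm_smul, inner_smul_right, he, Real.norm_of_nonneg (by positivity)]
    ring
  have h3 : ‖z‖ ^ 2 ≤ ‖x‖ ^ 2 := by gcongr
  nlinarith [mul_nonneg hr.le hxe, sq_pos_of_pos hr]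

end Pool.Agent.U591.HS
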