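import Pool.Agent.U591.HS.Base
import Pool.Agent.W797.Cap.Newton
import Pool.Agent.R243.HP.Pot

/-!
# Hollow solids: the density vanishes where the potential is constant; star-shaped domains
-/

set_option autoImplicit false

open MeasureTheory Set Filter Topology Metric
open scoped RealInnerProductSpace ENNReal ContDiff Laplacian Pointwise

namespace Pool.Agent.U591.HS

open Pool.Agent.Helper557.TFP

lemma nice_lap {φ : E3 → ℝ} (hφ : ContDiff ℝ ∞ φ) (hs : HasCompactSupport φ) : Nice (Δ φ) := by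
  obtain ⟨M, hM0, hM⟩ := Pool.Agent.R243.HP.lap_bound (N := 3) hφ hs
  refine nice_of_bdd (U := tsupport φ) hs.isCompact.isBounded
    (Pool.Agent.Helper486.TP.lap_cont (n := 3) hφ).measurable (B := M) (fun x => ?_) (fun x hx => ?_)
  · exact hM x
  · exact Pool.Agent.Helper486.TP.lap_supp (n := 3) hφ hs x hx

lemma pot_lap {φ : E3 → ℝ} (hφ : ContDiff ℝ ∞ φ) (hs : HasCompactSupport φ) (a : E3) :
    pot (Δ φ) a = -(4 * Real.pi) * φ a := by
  rw [← Pool.Agent.W797.Cap.newton3 φ hφ hs a]
  unfold pot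
  congr 1
  funext y
  rw [div_eq_mul_inv, mul_comm]

/-- Where the potential is constant the density vanishes. -/
theorem zero_of_const {f : E3 → ℝ} (hf : Nice f) {T : Set E3} (hT : IsOpen T) {c : ℝ}
    (hc : ∀ x ∈ T, pot f x = c) : ∀ᵐ x, x ∈ T → f x = 0 := by
  refine hT.ae_eq_zero_of_integral_contDiff_smul_eq_zero
    (hf.2.1.locallyIntegrable.locallyIntegrableOn _) ?_
  intro φ hφ hs hsupp
  have h1 : ∫ x, f x * pot (Δ φ) x = ∫ x, (Δ φ) x * pot f x := TF_E1_symm f (Δ φ) hf (nice_lap hφ hs)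
  have h2 : ∫ x, f x * pot (Δ φ) x = -(4 * Real.pi) * ∫ x, φ x • f x := by
    rw [← integral_const_mul]
    congr 1
    funext x
    rw [pot_lap hφ hs, smul_eq_mul]
    ring
  have h3 : ∫ x, (Δ φ) x * pot f x = 0 := by
    have : (fun x => (Δ φ) x * pot f x) = fun x => (Δ φ) x * c := by
      funext x
      by_cases hx : x ∈ tsupport φ
      · rw [hc x (hsupp hx)]
      · rw [Pool.Agent.Helper486.TP.lap_supp (n := 3) hφ hs x hx, zero_mul, zero_mul]
    rw [this, integral_mul_const, Pool.Agent.R243.HP.lap_integral (N := 3) hφ hs, zero_mul]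
  rw [h2, h3] at h1
  have hpi : -(4 * Real.pi) ≠ 0 := by
    have := Real.pi_pos
    linarith
  exact (mul_eq_zero.1 h1).resolve_left hpi

/-! ### star-shaped domains -/

/-- open, bounded, containing the origin and strictly star-shaped -/
structure Star (T : Set E3) : Prop where
  op : IsOpen T
  bdd : Bornology.IsBounded T
  zero : (0:E3) ∈ T
  star : ∀ x ∈ closure T, ∀ t : ℝ, 0 ≤ t → t < 1 → t • x ∈ T

lemma Star.frontier_ne {T : Set E3} (h : Star T) {x : E3} (hx : x ∈ frontier T) : x ∉ T := by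
  rw [h.op.frontier_eq] at hx
  exact hx.2

lemma Star.frontier_ne_zero {T : Set E3} (h : Star T) {x : E3} (hx : x ∈ frontier T) : x ≠ 0 := by
  rintro rfl
  exact h.frontier_ne hx h.zero

lemma Star.compact {T : Set E3} (h : Star T) : IsCompact (frontier T) :=
  h.bdd.isCompact_closure.of_isClosed_subset isClosed_frontier frontier_subset_closure

/-- The frontier of a strictly star-shaped domain is homeomorphic to the sphere. -/
theorem Star.homeo {T : Set E3} (h : Star T) :
    Nonempty (frontier T ≃ₜ sphere (0 : E3) 1) := by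
  have hc : CompactSpace (frontier T) := isCompact_iff_compactSpace.1 h.compact
  have hmem : ∀ x : frontier T, ‖(x : E3)‖⁻¹ • (x : E3) ∈ sphere (0:E3) 1 := by
    intro x
    have h0 : ‖(x : E3)‖ ≠ 0 := norm_ne_zero_iff.2 (h.frontier_ne_zero x.2)
    rw [mem_sphere_zero_iff_norm, norm_smul, norm_inv, norm_norm, inv_mul_cancel₀ h0]
  set F : frontier T → sphere (0:E3) 1 := fun x => ⟨‖(x : E3)‖⁻¹ • (x : E3), hmem x⟩ with hF
  have hFc : Continuous F := by
    have h1 : Continuous (fun x : frontier T => ‖(x:E3)‖⁻¹) :=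
      (continuous_norm.comp continuous_subtype_val).inv₀ fun x =>
        norm_ne_zero_iff.2 (h.frontier_ne_zero x.2)
    exact Continuous.subtype_mk (h1.smul continuous_subtype_val) _
  have hlt : ∀ x y : frontier T, ‖(x:E3)‖⁻¹ • (x:E3) = ‖(y:E3)‖⁻¹ • (y:E3) →
      ¬ ‖(x:E3)‖ < ‖(y:E3)‖ := by
    intro x y hxy hlt
    have hx0 : ‖(x : E3)‖ ≠ 0 := norm_ne_zero_iff.2 (h.frontier_ne_zero x.2)
    have hy0 : 0 < ‖(y : E3)‖ := norm_pos_iff.2 (h.frontier_ne_zero y.2)
    have e : (x:E3) = (‖(x:E3)‖ / ‖(y:E3)‖) • (y:E3) := by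
      have : (x:E3) = ‖(x:E3)‖ • (‖(x:E3)‖⁻¹ • (x:E3)) := by
        rw [smul_smul, mul_inv_cancel₀ hx0, one_smul]
      conv_lhs => rw [this, hxy, smul_smul]
      rw [div_eq_mul_inv]
    have := h.star y (frontier_subset_closure y.2) (‖(x:E3)‖ / ‖(y:E3)‖) (by positivity)
      ((div_lt_one hy0).2 hlt)
    rw [← e] at this
    exact h.frontier_ne x.2 this
  have hinj : Function.Injective F := by
    intro x y hxy
    have hxy' : ‖(x:E3)‖⁻¹ • (x:E3) = ‖(y:E3)‖⁻¹ • (y:E3) := congrArg Subtype.val hxy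
    have h1 : ‖(x:E3)‖ = ‖(y:E3)‖ :=
      le_antisymm (not_lt.1 (hlt y x hxy'.symm)) (not_lt.1 (hlt x y hxy'))
    rw [h1] at hxy'
    have hy0 : ‖(y : E3)‖⁻¹ ≠ 0 := inv_ne_zero (norm_ne_zero_iff.2 (h.frontier_ne_zero y.2))
    exact Subtype.ext (smul_right_injective _ hy0 hxy')
  have hsurj : Function.Surjective F := by
    intro u
    have hu : ‖(u : E3)‖ = 1 := by simp
    obtain ⟨R, hR⟩ := h.bdd.closure.subset_closedBall (0 : E3)
    have hAc : IsCompact ({s : ℝ | s • (u:E3) ∈ closure T} ∩ Icc 0 R) :=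
      isCompact_Icc.inter_left (isClosed_closure.preimage (by fun_prop))
    have hR0 : 0 ≤ R := by
      have := hR (subset_closure h.zero)
      simpa using this
    have hne : ({s : ℝ | s • (u:E3) ∈ closure T} ∩ Icc 0 R).Nonempty := by
      refine ⟨0, ?_, le_rfl, hR0⟩
      show (0:ℝ) • (u:E3) ∈ closure T
      rw [zero_smul]
      exact subset_closure h.zero
    obtain ⟨s, ⟨hs1, hs2⟩, hmax⟩ := hAc.exists_isMaxOn hne continuousOn_id
    have hmax' : ∀ s' : ℝ, 0 ≤ s' → s' • (u:E3) ∈ closure T → s' ≤ s := by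
      intro s' hs' hmem'
      have : s' ≤ R := by
        have h2 := hR hmem'
        rw [mem_closedBall_zero_iff, norm_smul, hu, Real.norm_of_nonneg hs'] at h2
        linarith
      exact hmax ⟨hmem', hs', this⟩
    have hnot : s • (u:E3) ∉ T := by
      intro hin
      obtain ⟨ε, hε, hball⟩ := Metric.isOpen_iff.1 h.op _ hin
      have h3 : (s + ε/2) • (u:E3) ∈ T := by
        apply hball
        rw [mem_ball, dist_eq_norm, ← sub_smul, norm_smul, hu]
        rw [show s + ε/2 - s = ε/2 by ring, Real.norm_of_nonneg (by positivity)]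
        linarith
      have := hmax' (s + ε/2) (by linarith [hs2.1]) (subset_closure h3)
      linarith
    have hfr : s • (u:E3) ∈ frontier T := by
      rw [h.op.frontier_eq]
      exact ⟨hs1, hnot⟩
    have hs0 : 0 < s := by
      rcases hs2.1.lt_or_eq with h4 | h4
      · exact h4
      · exfalso
        rw [← h4, zero_smul] at hnot
        exact hnot h.zero
    refine ⟨⟨s • (u:E3), hfr⟩, ?_⟩
    apply Subtype.ext
    show ‖s • (u:E3)‖⁻¹ • (s • (u:E3)) = u
    rw [norm_smul, hu, Real.norm_of_nonneg hs0.le, mul_one, smul_smul, inv_mul_cancel₀ hs0.ne',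
      one_smul]
  exact ⟨Continuous.homeoOfEquivCompactToT2 (f := Equiv.ofBijective F ⟨hinj, hsurj⟩) hFc⟩

lemma Star.null {T : Set E3} (h : Star T) : volume (frontier T) = 0 := by
  have hfin : volume (closure T) ≠ ⊤ := h.bdd.isCompact_closure.measure_lt_top.ne
  have hle : ∀ t : ℝ, 0 ≤ t → t < 1 → ENNReal.ofReal (t ^ 3) * volume (closure T) ≤ volume T := by
    intro t ht0 ht1
    have h1 : t • closure T ⊆ T := by
      rintro _ ⟨x, hx, rfl⟩
      exact h.star x hx t ht0 ht1
    have h2 := measure_mono (μ := (volume : Measure E3)) h1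
    rw [Measure.addHaar_smul] at h2
    have h3 : Module.finrank ℝ E3 = 3 := by simp
    rw [h3, abs_of_nonneg (by positivity)] at h2
    exact h2
  have hlim : Tendsto (fun t : ℝ => ENNReal.ofReal (t ^ 3) * volume (closure T)) (𝓝[<] 1)
      (𝓝 (ENNReal.ofReal (1 ^ 3) * volume (closure T))) := by
    refine ENNReal.Tendsto.mul_const ?_ (Or.inr hfin)
    refine (ENNReal.continuous_ofReal.tendsto _).comp ?_
    exact ((continuous_pow 3).tendsto 1).mono_left nhdsWithin_le_nhds
  have h4 : ENNReal.ofReal (1 ^ 3) * volume (closure T) ≤ volume T := by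
    refine le_of_tendsto hlim ?_
    filter_upwards [Ico_mem_nhdsLT (show (0:ℝ) < 1 by norm_num)] with t ht
    exact hle t ht.1 ht.2
  rw [one_pow, ENNReal.ofReal_one, one_mul] at h4
  rw [h.op.frontier_eq, measure_sdiff subset_closure h.op.measurableSet.nullMeasurableSet
    (ne_top_of_le_ne_top hfin (measure_mono subset_closure))]
  exact tsub_eq_zero_of_le h4

lemma Star.connected {T : Set E3} (h : Star T) : IsConnected T := by
  have hst : StarConvex ℝ (0:E3) T := by
    rw [starConvex_zero_iff]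
    intro x hx a ha0 ha1
    rcases ha1.lt_or_eq with h1 | h1
    · exact h.star x (subset_closure hx) a ha0 h1
    · rw [h1, one_smul]; exact hx
  exact (hst.isPathConnected h.zero).isConnected

end Pool.Agent.U591.HS
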