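import Pool.Agent.U591.HS.Exist2
import Pool.Agent.U591.HS.Zero

/-!
# Hollow solids: the cube
-/

set_option autoImplicit false

open MeasureTheory Set Filter Topology Metric
open scoped RealInnerProductSpace ENNReal

namespace Pool.Agent.U591.HS

open Pool.Agent.Helper557.TFP

/-- the open cube -/
def cube : Set E3 := {x | ∀ i, |x i| < 1}

lemma mem_cube {x : E3} : x ∈ cube ↔ ∀ i, |x i| < 1 := Iff.rfl

lemma cube_open : IsOpen cube := by
  have : cube = ⋂ i : Fin 3, {x : E3 | |x i| < 1} := by
    ext x; simp [mem_cube]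
  rw [this]
  exact isOpen_iInter_of_finite fun i => isOpen_lt (by fun_prop) continuous_const

lemma cube_closure {x : E3} (hx : x ∈ closure cube) : ∀ i, |x i| ≤ 1 := by
  intro i
  have hcl : IsClosed {x : E3 | |x i| ≤ 1} := isClosed_le (by fun_prop) continuous_const
  exact closure_minimal (s := cube) (fun y hy => (hy i).le) hcl hx

lemma cube_bdd : Bornology.IsBounded cube := by
  refine (isBounded_closedBall (x := (0:E3)) (r := 3)).subset fun x hx => ?_
  rw [mem_closedBall_zero_iff, EuclideanSpace.norm_eq, Real.sqrt_le_left (by norm_num),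
    Fin.sum_univ_three]
  have h : ∀ i, ‖x i‖ ^ 2 ≤ 1 := by
    intro i
    have h1 := hx i
    rw [Real.norm_eq_abs]
    nlinarith [abs_nonneg (x i)]
  have := h 0
  have := h 1
  have := h 2
  linarith

lemma cube_star : Star cube where
  op := cube_open
  bdd := cube_bdd
  zero := by intro i; simp
  star := by
    intro x hx t ht0 ht1 i
    have h1 := cube_closure hx i
    simp only [PiLp.smul_apply, smul_eq_mul, abs_mul, abs_of_nonneg ht0]
    nlinarith [abs_nonneg (x i)]

lemma cube_fin : volume cube ≠ ⊤ :=
  ne_top_of_le_ne_top cube_bdd.isCompact_closure.measure_lt_top.ne (measure_mono subset_closure)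

lemma cube_frontier {x : E3} (h1 : ∀ i, |x i| ≤ 1) (h2 : ∃ i, |x i| = 1) : x ∈ frontier cube := by
  rw [cube_open.frontier_eq]
  constructor
  · have hlim : Tendsto (fun t : ℝ => t • x) (𝓝[<] 1) (𝓝 ((1:ℝ) • x)) := by
      have : Continuous (fun t : ℝ => t • x) := by fun_prop
      exact (this.tendsto 1).mono_left nhdsWithin_le_nhds
    rw [one_smul] at hlim
    refine mem_closure_of_tendsto hlim ?_
    filter_upwards [Ico_mem_nhdsLT (show (0:ℝ) < 1 by norm_num)] with t ht i
    have := h1 i
    simp only [PiLp.smul_apply, smul_eq_mul, abs_mul, abs_of_nonneg ht.1]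
    nlinarith [abs_nonneg (x i), ht.1, ht.2]
  · intro hx
    obtain ⟨i, hi⟩ := h2
    have := hx i
    linarith

/-! ### reflections in the coordinate directions -/

lemma single_norm (i : Fin 3) {s : ℝ} (hs : s = 1 ∨ s = -1) :
    ‖(EuclideanSpace.single i s : E3)‖ = 1 := by
  rcases hs with rfl | rfl <;> simp

lemma single_inner (i : Fin 3) (s : ℝ) (x : E3) :
    (⟪(EuclideanSpace.single i s : E3), x⟫ : ℝ) = s * x i := by
  rw [EuclideanSpace.inner_single_left]; simp

lemma single_apply' (i : Fin 3) (s : ℝ) (j : Fin 3) :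
    (EuclideanSpace.single i s : E3) j = if j = i then s else 0 := by
  simp

lemma refl_same (i : Fin 3) {s : ℝ} (hs : s = 1 ∨ s = -1) (t : ℝ) (x : E3) :
    refl (EuclideanSpace.single i s) t x i = 2 * t * s - x i := by
  unfold Pool.Agent.Helper557.TFP.refl
  rw [single_inner]
  simp only [PiLp.sub_apply, PiLp.smul_apply, smul_eq_mul, single_apply', if_pos]
  rcases hs with rfl | rfl <;> ring

lemma refl_other (i : Fin 3) (s : ℝ) (t : ℝ) (x : E3) {j : Fin 3} (hj : j ≠ i) :
    refl (EuclideanSpace.single i s) t x j = x j := by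
  unfold Pool.Agent.Helper557.TFP.refl
  rw [single_inner]
  simp only [PiLp.sub_apply, PiLp.smul_apply, smul_eq_mul, single_apply', if_neg hj, mul_zero,
    sub_zero]

lemma cube_refl {i : Fin 3} {s : ℝ} (hs : s = 1 ∨ s = -1) {t : ℝ} (ht : 0 ≤ t) {x : E3}
    (hx : x ∈ cube) (htx : t < s * x i) : refl (EuclideanSpace.single i s) t x ∈ cube := by
  intro j
  by_cases hj : j = i
  · subst hj
    rw [refl_same j hs]
    have h1 := abs_lt.1 (hx j)
    rw [abs_lt]
    rcases hs with rfl | rfl
    · constructor <;> linarith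
    · constructor <;> linarith
  · rw [refl_other i s t x hj]
    exact hx j

/-- symmetric and decreasing in every coordinate -/
def Refl (V : E3 → ℝ) : Prop :=
  ∀ (i : Fin 3) (s : ℝ), (s = 1 ∨ s = -1) → ∀ t : ℝ, 0 ≤ t → ∀ x : E3, t < s * x i →
    V x ≤ V (refl (EuclideanSpace.single i s) t x)

lemma Refl.step {V : E3 → ℝ} (hV : Refl V) (i : Fin 3) {x y : E3} (h : ∀ j, j ≠ i → y j = x j)
    (hi : |y i| ≤ |x i|) : V x ≤ V y := by
  by_cases hxy : y i = x i
  · have : y = x := by
      ext j
      by_cases hj : j = i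
      · rw [hj, hxy]
      · exact h j hj
    rw [this]
  · have key : ∀ s : ℝ, (s = 1 ∨ s = -1) → |x i| = s * x i → V x ≤ V y := by
      intro s hs hsx
      have hs2 : s * s = 1 := by rcases hs with rfl | rfl <;> norm_num
      have h1 : s * y i ≤ s * x i := by
        rw [← hsx]
        refine le_trans ?_ hi
        rcases hs with rfl | rfl
        · rw [one_mul]; exact le_abs_self _
        · rw [neg_one_mul]; exact neg_le_abs _
      have h2 : -(s * x i) ≤ s * y i := by
        rw [← hsx]
        have h3 : -|y i| ≤ s * y i := by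
          rcases hs with rfl | rfl
          · rw [one_mul]; exact neg_abs_le _
          · rw [neg_one_mul, neg_le_neg_iff]; exact le_abs_self _
        linarith
      have h3 : s * y i ≠ s * x i := by
        intro he
        apply hxy
        have := congrArg (fun z => s * z) he
        simp only at this
        rw [← mul_assoc, ← mul_assoc, hs2, one_mul, one_mul] at this
        exact this
      have h4 := lt_of_le_of_ne h1 h3
      have h5 := hV i s hs ((s * x i + s * y i) / 2) (by linarith) x (by linarith)
      have h6 : refl (EuclideanSpace.single i s) ((s * x i + s * y i) / 2) x = y := by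
        ext j
        by_cases hj : j = i
        · subst hj
          rw [refl_same j hs]
          calc 2 * ((s * x j + s * y j) / 2) * s - x j = (s * s) * (x j + y j) - x j := by ring
            _ = y j := by rw [hs2]; ring
        · rw [refl_other i s _ x hj]
          exact (h j hj).symm
      rw [h6] at h5
      exact h5
    rcases le_total 0 (x i) with hx | hx
    · exact key 1 (Or.inl rfl) (by rw [abs_of_nonneg hx, one_mul])
    · exact key (-1) (Or.inr rfl) (by rw [abs_of_nonpos hx, neg_one_mul])

lemma Refl.box {V : E3 → ℝ} (hV : Refl V) {x y : E3} (h : ∀ i, |y i| ≤ |x i|) : V x ≤ V y := by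
  have h1 : V x ≤ V !₂[y 0, x 1, x 2] := by
    refine hV.step 0 (fun j hj => ?_) (by simpa using h 0)
    fin_cases j
    · exact absurd rfl hj
    · simp
    · simp
  have h2 : V !₂[y 0, x 1, x 2] ≤ V !₂[y 0, y 1, x 2] := by
    refine hV.step 1 (fun j hj => ?_) (by simpa using h 1)
    fin_cases j
    · simp
    · exact absurd rfl hj
    · simp
  have h3 : V !₂[y 0, y 1, x 2] ≤ V y := by
    refine hV.step 2 (fun j hj => ?_) (by simpa using h 2)
    fin_cases j
    · simp
    · simp
    · exact absurd rfl hj
  exact h1.trans (h2.trans h3)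

lemma Obst.refl {c : ℝ} (hc : 0 < c) {f : E3 → ℝ} (h : Obst cube c f) : Refl (pot f) := by
  intro i s hs t ht x hx
  have hn := single_norm i hs
  refine refl_le (h.nice cube_bdd) _ hn t ?_ x (by rw [single_inner]; exact hx)
  obtain ⟨-, -, -, -, -, h6⟩ := refl_basic (EuclideanSpace.single i s) hn t
  have hlow := h6.quasiMeasurePreserving.ae h.low
  filter_upwards [hlow] with y hy hty hlt
  rw [single_inner] at hty
  by_cases hσ : Pool.Agent.Helper557.TFP.refl (EuclideanSpace.single i s) t y ∈ cube
  · have hle := h.pot_le cube_bdd hc y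
    rw [hy hσ (by linarith)]
    exact h.le_one y
  · have hyU : y ∉ cube := fun hyU => hσ (cube_refl hs ht hyU hty)
    rw [h.zero y hyU]
    exact h.nonneg _

/-! ### the full cube -/

/-- the density of the full cube -/
noncomputable def chi : E3 → ℝ := cube.indicator (fun _ => 1)

lemma chi_mem {x : E3} (hx : x ∈ cube) : chi x = 1 := indicator_of_mem hx _

lemma chi_notMem {x : E3} (hx : x ∉ cube) : chi x = 0 := indicator_of_notMem hx _

lemma chi_nonneg (x : E3) : 0 ≤ chi x := indicator_nonneg (fun _ _ => zero_le_one) x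

lemma ind_nice {A : Set E3} (hA : MeasurableSet A) (hsub : A ⊆ cube) :
    Nice (A.indicator (fun _ => (1:ℝ))) := by
  refine nice_of_bdd cube_bdd (measurable_const.indicator hA) (B := 1) (fun x => ?_) (fun x hx => ?_)
  · by_cases h : x ∈ A
    · rw [indicator_of_mem h]; norm_num
    · rw [indicator_of_notMem h]; norm_num
  · exact indicator_of_notMem (fun h => hx (hsub h)) _

lemma chi_nice : Nice chi := ind_nice cube_open.measurableSet (subset_refl _)

lemma chi_refl : Refl (pot chi) := by
  intro i s hs t ht x hx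
  have hn := single_norm i hs
  refine refl_le chi_nice _ hn t (Eventually.of_forall fun y hty _ => ?_) x
    (by rw [single_inner]; exact hx)
  rw [single_inner] at hty
  by_cases hyU : y ∈ cube
  · rw [chi_mem hyU, chi_mem (cube_refl hs ht hyU hty)]
  · rw [chi_notMem hyU]
    exact chi_nonneg _

/-- The potential of the cube at the centre is larger than at the centres of the faces. -/
lemma chi_lt (i : Fin 3) {s : ℝ} (hs : s = 1 ∨ s = -1) :
    pot chi (EuclideanSpace.single i s) < pot chi 0 := by
  have hn := single_norm i hs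
  set n : E3 := EuclideanSpace.single i s with hndef
  obtain ⟨h1, h2, h3, h4, h5, h6⟩ := refl_basic n hn (1/2)
  have hinner : Continuous (fun x : E3 => (⟪n, x⟫ : ℝ)) := by fun_prop
  set A : Set E3 := cube ∩ {y | 0 < ⟪n, y⟫} with hA
  set B : Set E3 := cube ∩ {y | ⟪n, y⟫ ≤ 0} with hB
  have hAm : MeasurableSet A := (cube_open.inter (isOpen_lt continuous_const hinner)).measurableSet
  have hBm : MeasurableSet B :=
    cube_open.measurableSet.inter (isClosed_le hinner continuous_const).measurableSet
  have hAN := ind_nice hAm inter_subset_left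
  have hBN := ind_nice hBm inter_subset_left
  have hsplit : ∀ x, pot chi x = pot (A.indicator (fun _ => (1:ℝ))) x
      + pot (B.indicator (fun _ => (1:ℝ))) x := by
    intro x
    obtain ⟨b1, hb1⟩ := nice_bound _ hAN
    obtain ⟨b2, hb2⟩ := nice_bound _ hBN
    unfold pot
    rw [← integral_add (hb1 x).1 (hb2 x).1]
    congr 1
    funext y
    rw [← add_div]
    congr 1
    by_cases hy : y ∈ cube
    · rw [chi_mem hy]
      by_cases hp : 0 < (⟪n, y⟫ : ℝ)
      · rw [indicator_of_mem (show y ∈ A from ⟨hy, hp⟩),
          indicator_of_notMem (show y ∉ B from fun h => absurd hp (not_lt.2 h.2)), add_zero]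
      · rw [indicator_of_notMem (show y ∉ A from fun h => hp h.2),
          indicator_of_mem (show y ∈ B from ⟨hy, not_lt.1 hp⟩), zero_add]
    · rw [chi_notMem hy, indicator_of_notMem (fun h => hy h.1), indicator_of_notMem (fun h => hy h.1),
        add_zero]
  -- the reflection of `n` is the origin
  have hσn : refl n (1/2) n = 0 := by
    unfold Pool.Agent.Helper557.TFP.refl
    rw [real_inner_self_eq_norm_sq, hn]
    norm_num
  have hAA : (fun y => A.indicator (fun _ => (1:ℝ)) (refl n (1/2) y)) = A.indicator (fun _ => (1:ℝ)) := by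
    have hsub : ∀ y, y ∈ A → refl n (1/2) y ∈ A := by
      rintro y ⟨hy1, hy2⟩
      have hy2' : 0 < s * y i := by
        have : 0 < (⟪n, y⟫ : ℝ) := hy2
        rwa [hndef, single_inner] at this
      have hlt1 : s * y i < 1 := by
        have := abs_lt.1 (hy1 i)
        rcases hs with rfl | rfl <;> linarith
      constructor
      · intro j
        by_cases hj : j = i
        · subst hj
          rw [hndef, refl_same j hs, abs_lt]
          rcases hs with rfl | rfl
          · constructor <;> linarith
          · constructor <;> linarith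
        · rw [hndef, refl_other i s _ y hj]
          exact hy1 j
      · show 0 < (⟪n, refl n (1/2) y⟫ : ℝ)
        rw [h3, hndef, single_inner]
        linarith
    funext y
    by_cases hy : y ∈ A
    · rw [indicator_of_mem hy, indicator_of_mem (hsub y hy)]
    · rw [indicator_of_notMem hy, indicator_of_notMem]
      intro h
      have := hsub _ h
      rw [h1] at this
      exact hy this
  have hAeq : pot (A.indicator (fun _ => (1:ℝ))) n = pot (A.indicator (fun _ => (1:ℝ))) 0 := by
    have := TF_E2_swap n hn (1/2) (A.indicator (fun _ => (1:ℝ))) n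
    rw [hAA, hσn] at this
    exact this
  have hBlt : pot (B.indicator (fun _ => (1:ℝ))) n < pot (B.indicator (fun _ => (1:ℝ))) 0 := by
    obtain ⟨b2, hb2⟩ := nice_bound _ hBN
    have e : pot (B.indicator (fun _ => (1:ℝ))) 0 - pot (B.indicator (fun _ => (1:ℝ))) n =
        ∫ y, (B.indicator (fun _ => (1:ℝ)) y / ‖0 - y‖ - B.indicator (fun _ => (1:ℝ)) y / ‖n - y‖) := by
      unfold pot
      rw [integral_sub (hb2 0).1 (hb2 n).1]
    have hlt : ∀ y, (⟪n, y⟫ : ℝ) ≤ 0 → ‖0 - y‖ < ‖n - y‖ := by
      intro y hy
      rw [zero_sub, norm_neg]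
      have h7 : ‖y‖ ^ 2 < ‖n - y‖ ^ 2 := by
        rw [norm_sub_sq_real, hn]
        linarith
      exact lt_of_pow_lt_pow_left₀ 2 (norm_nonneg _) h7
    have hpos : ∀ y, y ∈ B → y ≠ 0 → 0 < B.indicator (fun _ => (1:ℝ)) y / ‖0 - y‖ -
        B.indicator (fun _ => (1:ℝ)) y / ‖n - y‖ := by
      intro y hy hy0
      rw [indicator_of_mem hy]
      have h7 := hlt y hy.2
      have h0 : 0 < ‖(0:E3) - y‖ := by
        rw [zero_sub, norm_neg]; exact norm_pos_iff.2 hy0
      have := one_div_lt_one_div_of_lt h0 h7
      linarith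
    have hnn : ∀ᵐ y, 0 ≤ B.indicator (fun _ => (1:ℝ)) y / ‖0 - y‖ -
        B.indicator (fun _ => (1:ℝ)) y / ‖n - y‖ := by
      have hne : ∀ᵐ y : E3, y ≠ 0 := by
        rw [ae_iff]
        simp
      filter_upwards [hne] with y hy0
      by_cases hy : y ∈ B
      · exact (hpos y hy hy0).le
      · rw [indicator_of_notMem hy]; simp
    have hI : 0 < ∫ y, (B.indicator (fun _ => (1:ℝ)) y / ‖0 - y‖ -
        B.indicator (fun _ => (1:ℝ)) y / ‖n - y‖) := by
      rw [integral_pos_iff_support_of_nonneg_ae hnn ((hb2 0).1.sub (hb2 n).1)]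
      have hO : IsOpen (cube ∩ {y | (⟪n, y⟫ : ℝ) < 0}) :=
        cube_open.inter (isOpen_lt hinner continuous_const)
      have hmem : (-(1/2) : ℝ) • n ∈ cube ∩ {y | (⟪n, y⟫ : ℝ) < 0} := by
        constructor
        · intro j
          simp only [PiLp.smul_apply, smul_eq_mul, hndef, single_apply']
          split_ifs
          · rcases hs with rfl | rfl <;> norm_num
          · norm_num
        · show (⟪n, (-(1/2) : ℝ) • n⟫ : ℝ) < 0
          rw [inner_smul_right, real_inner_self_eq_norm_sq, hn]
          norm_num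
      refine lt_of_lt_of_le (hO.measure_pos volume ⟨_, hmem⟩) (measure_mono ?_)
      rintro y ⟨hy1, hy2⟩
      have hy2' : (⟪n, y⟫ : ℝ) < 0 := hy2
      have hy0 : y ≠ 0 := by
        rintro rfl
        rw [inner_zero_right] at hy2'
        exact lt_irrefl _ hy2'
      exact (hpos y ⟨hy1, hy2'.le⟩ hy0).ne'
    linarith
  rw [hsplit, hsplit, hAeq]
  linarith

end Pool.Agent.U591.HS
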