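import Mathlib

/-!
# Minimisation of a continuous convex function over a closed bounded convex set of a Hilbert space
-/

set_option autoImplicit false

open Filter Topology

namespace Pool.Agent.U591.HS

theorem exists_min_convex {H : Type*} [NormedAddCommGroup H] [InnerProductSpace ℝ H]
    [CompleteSpace H] {K : Set H} (hne : K.Nonempty) (hconv : Convex ℝ K) (hcl : IsClosed K)
    {R : ℝ} (hb : ∀ f ∈ K, ‖f‖ ≤ R) {J : H → ℝ} (hJ : Continuous J) (hJc : ConvexOn ℝ K J)
    {L : ℝ} (hL : ∀ f ∈ K, L ≤ J f) : ∃ f ∈ K, ∀ g ∈ K, J f ≤ J g := by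
  classical
  set I : ℝ := sInf (J '' K) with hI
  have hbdd : BddBelow (J '' K) := ⟨L, by rintro _ ⟨f, hf, rfl⟩; exact hL f hf⟩
  have hIle : ∀ f ∈ K, I ≤ J f := fun f hf => csInf_le hbdd ⟨f, hf, rfl⟩
  set S : ℕ → Set H := fun n => {f | f ∈ K ∧ J f ≤ I + 1 / ((n:ℝ) + 1)} with hS
  have hSne : ∀ n, (S n).Nonempty := by
    intro n
    have h1 : I < I + 1 / ((n:ℝ) + 1) := by
      have : (0:ℝ) < 1 / ((n:ℝ) + 1) := by positivity
      linarith
    obtain ⟨_, ⟨f, hf, rfl⟩, hlt⟩ := exists_lt_of_csInf_lt (hne.image J) h1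
    exact ⟨f, hf, hlt.le⟩
  have hScl : ∀ n, IsClosed (S n) := fun n => hcl.inter (isClosed_le hJ continuous_const)
  have hSconv : ∀ n, Convex ℝ (S n) := fun n => hJc.convex_le _
  have hSmono : ∀ m n, n ≤ m → S m ⊆ S n := by
    intro m n hnm f hf
    refine ⟨hf.1, hf.2.trans ?_⟩
    have h1 : (n:ℝ) ≤ m := by exact_mod_cast hnm
    have : 1 / ((m:ℝ) + 1) ≤ 1 / ((n:ℝ) + 1) := by
      apply one_div_le_one_div_of_le <;> [positivity; linarith]
    linarith
  have hex : ∀ n, ∃ v ∈ S n, ∀ w ∈ S n, ‖v‖ ≤ ‖w‖ := by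
    intro n
    obtain ⟨v, hv, hvi⟩ := exists_norm_eq_iInf_of_complete_convex (hSne n) (hScl n).isComplete
      (hSconv n) 0
    refine ⟨v, hv, fun w hw => ?_⟩
    simp only [zero_sub, norm_neg] at hvi
    rw [hvi]
    exact ciInf_le (f := fun w : S n => ‖(w : H)‖) ⟨0, by
      rintro _ ⟨z, rfl⟩; exact norm_nonneg _⟩ ⟨w, hw⟩
  choose p hpS hpmin using hex
  have hmono : Monotone (fun n => ‖p n‖ ^ 2) := by
    intro n m hnm
    have := hpmin n (p m) (hSmono m n hnm (hpS m))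
    show ‖p n‖ ^ 2 ≤ ‖p m‖ ^ 2
    gcongr
  have hbd : ∀ n, ‖p n‖ ^ 2 ≤ R ^ 2 := by
    intro n
    have := hb (p n) (hpS n).1
    gcongr
  have hkey : ∀ n m, n ≤ m → ‖p n - p m‖ ^ 2 ≤ 2 * (‖p m‖ ^ 2 - ‖p n‖ ^ 2) := by
    intro n m hnm
    have hmid : (1/2 : ℝ) • p n + (1/2 : ℝ) • p m ∈ S n :=
      hSconv n (hpS n) (hSmono m n hnm (hpS m)) (by norm_num) (by norm_num) (by norm_num)
    have h1 := hpmin n _ hmid
    have h2 : ‖(1/2 : ℝ) • p n + (1/2 : ℝ) • p m‖ = (1/2) * ‖p n + p m‖ := by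
      rw [← smul_add, norm_smul]; norm_num
    rw [h2] at h1
    have h3 := parallelogram_law_with_norm ℝ (p n) (p m)
    have h4 : (2 * ‖p n‖) ^ 2 ≤ ‖p n + p m‖ ^ 2 := by
      have : 2 * ‖p n‖ ≤ ‖p n + p m‖ := by linarith
      gcongr
    nlinarith
  obtain ⟨a, ha⟩ : ∃ a, Tendsto (fun n => ‖p n‖ ^ 2) atTop (𝓝 a) :=
    ⟨_, tendsto_atTop_ciSup hmono ⟨R ^ 2, by rintro _ ⟨n, rfl⟩; exact hbd n⟩⟩
  have hCau : CauchySeq p := by
    have hC2 := ha.cauchySeq
    rw [Metric.cauchySeq_iff'] at hC2 ⊢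
    intro ε hε
    obtain ⟨N, hN⟩ := hC2 (ε ^ 2 / 2) (by positivity)
    refine ⟨N, fun n hn => ?_⟩
    have h1 := hkey N n hn
    have h2 := hN n hn
    rw [Real.dist_eq] at h2
    have h3 := (abs_lt.mp h2).2
    rw [dist_comm, dist_eq_norm]
    have h4 : ‖p N - p n‖ ^ 2 < ε ^ 2 := by linarith
    exact lt_of_pow_lt_pow_left₀ 2 hε.le h4
  obtain ⟨f, hf⟩ := cauchySeq_tendsto_of_complete hCau
  have hfS : ∀ n, f ∈ S n := by
    intro n
    refine (hScl n).mem_of_tendsto hf ?_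
    filter_upwards [eventually_ge_atTop n] with m hm
    exact hSmono m n hm (hpS m)
  refine ⟨f, (hfS 0).1, fun g hg => ?_⟩
  refine le_trans ?_ (hIle g hg)
  have hlim : Tendsto (fun n : ℕ => I + 1 / ((n:ℝ) + 1)) atTop (𝓝 (I + 0)) :=
    tendsto_const_nhds.add tendsto_one_div_add_atTop_nhds_zero_nat
  rw [add_zero] at hlim
  exact ge_of_tendsto' hlim fun n => (hfS n).2

/-- A quadratic functional with a symmetric nonnegative bounded operator attains its minimum on a
closed bounded convex set, and the minimiser satisfies the variational inequality. -/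
theorem exists_variational {H : Type*} [NormedAddCommGroup H] [InnerProductSpace ℝ H]
    [CompleteSpace H] {K : Set H} (hne : K.Nonempty) (hconv : Convex ℝ K) (hcl : IsClosed K)
    {R : ℝ} (hb : ∀ f ∈ K, ‖f‖ ≤ R) (T : H →L[ℝ] H) (b : H)
    (hsymm : ∀ f g, inner ℝ (T f) g = inner ℝ (T g) f) (hpos : ∀ f, 0 ≤ inner ℝ (T f) f) :
    ∃ f ∈ K, ∀ g ∈ K, 0 ≤ inner ℝ (T f - b) (g - f) := by
  set J : H → ℝ := fun f => 1/2 * inner ℝ (T f) f - inner ℝ b f with hJ
  have hJcont : Continuous J := by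
    rw [hJ]
    exact ((T.continuous.inner continuous_id).const_mul _).sub (continuous_const.inner continuous_id)
  have hJconv : ConvexOn ℝ K J := by
    refine ⟨hconv, fun f _ g _ a c ha hc hac => ?_⟩
    have h1 := hpos (f - g)
    simp only [map_sub, inner_sub_left, inner_sub_right] at h1
    simp only [hJ, map_add, map_smul, inner_add_left, inner_add_right, inner_smul_left,
      inner_smul_right, smul_eq_mul, conj_trivial]
    have h2 := hsymm f g
    have hc' : c = 1 - a := by linarith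
    subst hc'
    have h3 : 0 ≤ a * (1 - a) * (inner ℝ (T f) f - inner ℝ (T f) g - (inner ℝ (T g) f - inner ℝ (T g) g)) := by
      have : 0 ≤ a * (1 - a) := mul_nonneg ha hc
      exact mul_nonneg this (by linarith)
    nlinarith
  have hJlow : ∀ f ∈ K, - (‖b‖ * |R|) ≤ J f := by
    intro f hf
    have h1 := hpos f
    have h2 := real_inner_le_norm b f
    have h3 : ‖b‖ * ‖f‖ ≤ ‖b‖ * |R| :=
      mul_le_mul_of_nonneg_left ((hb f hf).trans (le_abs_self R)) (norm_nonneg _)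
    simp only [hJ]
    linarith
  obtain ⟨f, hf, hmin⟩ := exists_min_convex hne hconv hcl hb hJcont hJconv hJlow
  refine ⟨f, hf, fun g hg => ?_⟩
  -- compare with f + t (g - f)
  have key : ∀ t : ℝ, 0 < t → t ≤ 1 →
      0 ≤ inner ℝ (T f - b) (g - f) + t / 2 * inner ℝ (T (g - f)) (g - f) := by
    intro t ht ht1
    have hmem : (1 - t) • f + t • g ∈ K := hconv hf hg (by linarith) ht.le (by ring)
    have hle := hmin _ hmem
    have e : (1 - t) • f + t • g = f + t • (g - f) := by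
      rw [smul_sub, sub_smul, one_smul]; abel
    rw [e] at hle
    have h2 := hsymm f (g - f)
    simp only [hJ, map_add, map_smul, inner_add_left, inner_add_right, inner_smul_left,
      inner_smul_right, conj_trivial] at hle
    have h3 : 0 ≤ t * (inner ℝ (T f - b) (g - f) + t / 2 * inner ℝ (T (g - f)) (g - f)) := by
      rw [inner_sub_left]
      nlinarith
    exact nonneg_of_mul_nonneg_right h3 ht
  have hlim : Tendsto (fun t : ℝ => inner ℝ (T f - b) (g - f) + t / 2 * inner ℝ (T (g - f)) (g - f))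
      (𝓝[>] 0) (𝓝 (inner ℝ (T f - b) (g - f) + 0 / 2 * inner ℝ (T (g - f)) (g - f))) := by
    have : Continuous (fun t : ℝ => inner ℝ (T f - b) (g - f) + t / 2 * inner ℝ (T (g - f)) (g - f)) := by
      fun_prop
    exact (this.tendsto 0).mono_left nhdsWithin_le_nhds
  rw [zero_div, zero_mul, add_zero] at hlim
  refine ge_of_tendsto hlim ?_
  filter_upwards [Ioc_mem_nhdsGT (show (0:ℝ) < 1 by norm_num)] with t ht
  exact key t ht.1 ht.2

end Pool.Agent.U591.HS
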