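import Pool.Agent.U591.HS.Refl
import Pool.Agent.U591.HS.Hilb

/-!
# Hollow solids: existence of the constrained equilibrium density
-/

set_option autoImplicit false

open MeasureTheory Set Filter Topology Metric
open scoped RealInnerProductSpace ENNReal

namespace Pool.Agent.U591.HS

open Pool.Agent.Helper557.TFP

/-- the square of the Newtonian kernel, cut off -/
noncomputable def kap (u : E3) : ℝ := (ball (0:E3) 1).indicator (fun u : E3 => (‖u‖ ^ 2)⁻¹) u

lemma kap_int : Integrable kap := by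
  have h2 : IntegrableOn (fun x : E3 => (‖x‖ ^ 2)⁻¹) (ball 0 1) := by
    rw [integrableOn_fun_norm_addHaar (volume : Measure E3) (f := fun r : ℝ => (r ^ 2)⁻¹)]
    rw [finrank_euclideanSpace_fin]
    have h : IntegrableOn (fun _ : ℝ => (1:ℝ)) (Ioo 0 1) := by
      rw [integrableOn_const_iff]
      right
      simp
    refine h.congr_fun ?_ measurableSet_Ioo
    intro y hy
    have : y ≠ 0 := hy.1.ne'
    simp only [smul_eq_mul]
    field_simp
  exact (integrable_indicator_iff measurableSet_ball).2 h2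

lemma kap_nonneg (u : E3) : 0 ≤ kap u := indicator_nonneg (fun v _ => by positivity) u

lemma ker_sq_le (x y : E3) : (1 / ‖x - y‖) ^ 2 ≤ kap (x - y) + 1 := by
  unfold kap
  by_cases h : x - y ∈ ball (0:E3) 1
  · rw [indicator_of_mem h, one_div, inv_pow]
    linarith
  · rw [indicator_of_notMem h, zero_add]
    rw [mem_ball_zero_iff, not_lt] at h
    rw [one_div]
    have : ‖x - y‖⁻¹ ≤ 1 := inv_le_one_of_one_le₀ h
    have h0 : 0 ≤ ‖x - y‖⁻¹ := by positivity
    nlinarith

section

variable {U : Set E3}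

lemma ker_memLp (hfin : volume U ≠ ⊤) (x : E3) :
    MemLp (fun y : E3 => 1 / ‖x - y‖) 2 (volume.restrict U) := by
  have : IsFiniteMeasure (volume.restrict U) := ⟨by
    rw [Measure.restrict_apply_univ]; exact hfin.lt_top⟩
  have hm : Measurable (fun y : E3 => 1 / ‖x - y‖) := by fun_prop
  rw [memLp_two_iff_integrable_sq hm.aestronglyMeasurable]
  have h1 : Integrable (fun y => kap (x - y)) (volume.restrict U) :=
    (kap_int.comp_sub_left x).restrict
  refine (h1.add (integrable_const (1:ℝ))).mono' (hm.pow_const 2).aestronglyMeasurable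
    (Eventually.of_forall fun y => ?_)
  rw [Real.norm_of_nonneg (by positivity)]
  exact ker_sq_le x y

/-- the kernel as an element of `L²(U)` -/
noncomputable def ker (hfin : volume U ≠ ⊤) (x : E3) : Lp ℝ 2 (volume.restrict U) :=
  (ker_memLp hfin x).toLp

lemma norm_ker_le (hfin : volume U ≠ ⊤) : ∃ M : ℝ, 0 ≤ M ∧ ∀ x, ‖ker hfin x‖ ≤ M := by
  have : IsFiniteMeasure (volume.restrict U) := ⟨by
    rw [Measure.restrict_apply_univ]; exact hfin.lt_top⟩
  refine ⟨√((∫ u, kap u) + (volume U).toReal), Real.sqrt_nonneg _, fun x => ?_⟩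
  apply Real.le_sqrt_of_sq_le
  rw [← real_inner_self_eq_norm_sq, L2.inner_def]
  have h1 : Integrable (fun y => kap (x - y)) (volume.restrict U) :=
    (kap_int.comp_sub_left x).restrict
  have hae := (ker_memLp (U := U) hfin x).coeFn_toLp
  have e : ∫ a, inner ℝ (ker hfin x a) (ker hfin x a) ∂(volume.restrict U) =
      ∫ a, (1 / ‖x - a‖) ^ 2 ∂(volume.restrict U) := by
    refine integral_congr_ae ?_
    filter_upwards [hae] with a ha
    rw [show (ker hfin x : E3 → ℝ) a = 1 / ‖x - a‖ from ha]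
    rw [real_inner_self_eq_norm_sq, Real.norm_eq_abs, sq_abs]
  rw [e]
  have hm : Measurable (fun y : E3 => 1 / ‖x - y‖) := by fun_prop
  have h2 : ∫ a, (1 / ‖x - a‖) ^ 2 ∂(volume.restrict U) ≤
      ∫ a, (kap (x - a) + 1) ∂(volume.restrict U) := by
    refine integral_mono ?_ (h1.add (integrable_const (1:ℝ))) (fun a => ker_sq_le x a)
    exact (memLp_two_iff_integrable_sq hm.aestronglyMeasurable).1 (ker_memLp hfin x)
  refine h2.trans ?_
  rw [integral_add h1 (integrable_const (1:ℝ))]
  have h3 : ∫ a, kap (x - a) ∂(volume.restrict U) ≤ ∫ u, kap u := by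
    calc ∫ a, kap (x - a) ∂(volume.restrict U) ≤ ∫ a, kap (x - a) :=
          setIntegral_le_integral (kap_int.comp_sub_left x) (Eventually.of_forall fun a => kap_nonneg _)
      _ = ∫ u, kap u := integral_sub_left_eq_self _ _ _
  have h4 : ∫ _a, (1:ℝ) ∂(volume.restrict U) = (volume U).toReal := by
    simp [Measure.real]
  linarith

/-- the extension by zero -/
noncomputable def ext (U : Set E3) (u : Lp ℝ 2 (volume.restrict U)) : E3 → ℝ :=
  U.indicator (u : E3 → ℝ)

lemma ext_nice (hUm : MeasurableSet U) (hfin : volume U ≠ ⊤) (u : Lp ℝ 2 (volume.restrict U)) :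
    Nice (ext U u) := by
  have : IsFiniteMeasure (volume.restrict U) := ⟨by
    rw [Measure.restrict_apply_univ]; exact hfin.lt_top⟩
  have hm : Measurable (u : E3 → ℝ) := (Lp.stronglyMeasurable u).measurable
  have hL : MemLp (u : E3 → ℝ) 2 (volume.restrict U) := Lp.memLp u
  refine ⟨hm.indicator hUm, ?_, ?_⟩
  · unfold ext
    rw [integrable_indicator_iff hUm]
    exact hL.integrable (by norm_num)
  · have e : (fun x => |ext U u x| ^ (5/3 : ℝ)) = U.indicator (fun x => |u x| ^ (5/3 : ℝ)) := by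
      funext x
      unfold ext
      by_cases hx : x ∈ U
      · rw [indicator_of_mem hx, indicator_of_mem hx]
      · rw [indicator_of_notMem hx, indicator_of_notMem hx, abs_zero]
        simp
    rw [e, integrable_indicator_iff hUm]
    have hsq : Integrable (fun x => (u x) ^ 2) (volume.restrict U) :=
      (memLp_two_iff_integrable_sq hm.aestronglyMeasurable).1 hL
    refine Integrable.mono' (hsq.add (integrable_const (1:ℝ))) (hm.abs.pow_const _).aestronglyMeasurable
      (Eventually.of_forall fun x => ?_)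
    rw [Real.norm_of_nonneg (Real.rpow_nonneg (abs_nonneg _) _)]
    simp only [Pi.add_apply]
    rcases le_total |u x| 1 with h | h
    · have : |u x| ^ (5/3 : ℝ) ≤ 1 := Real.rpow_le_one (abs_nonneg _) h (by norm_num)
      nlinarith [sq_nonneg (u x)]
    · have : |u x| ^ (5/3 : ℝ) ≤ |u x| ^ (2 : ℝ) := Real.rpow_le_rpow_of_exponent_le h (by norm_num)
      rw [Real.rpow_two, sq_abs] at this
      linarith

lemma pot_ext (hUm : MeasurableSet U) (hfin : volume U ≠ ⊤) (u : Lp ℝ 2 (volume.restrict U)) (x : E3) :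
    pot (ext U u) x = inner ℝ (ker hfin x) u := by
  rw [L2.inner_def]
  unfold pot ext
  have e : (fun y => U.indicator (u : E3 → ℝ) y / ‖x - y‖) =
      U.indicator (fun y => u y / ‖x - y‖) := by
    funext y
    by_cases hy : y ∈ U
    · rw [indicator_of_mem hy, indicator_of_mem hy]
    · rw [indicator_of_notMem hy, indicator_of_notMem hy, zero_div]
  rw [e, integral_indicator hUm]
  refine integral_congr_ae ?_
  have hae := (ker_memLp (U := U) hfin x).coeFn_toLp
  filter_upwards [hae] with a ha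
  rw [show (ker hfin x : E3 → ℝ) a = 1 / ‖x - a‖ from ha]
  simp only [RCLike.inner_apply, conj_trivial]
  ring

lemma pot_memLp (hUm : MeasurableSet U) (hfin : volume U ≠ ⊤) (u : Lp ℝ 2 (volume.restrict U)) :
    MemLp (pot (ext U u)) 2 (volume.restrict U) := by
  have : IsFiniteMeasure (volume.restrict U) := ⟨by
    rw [Measure.restrict_apply_univ]; exact hfin.lt_top⟩
  obtain ⟨M, hM0, hM⟩ := norm_ker_le hfin
  refine MemLp.of_bound (pot_continuous (ext_nice hUm hfin u)).aestronglyMeasurable (M * ‖u‖)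
    (Eventually.of_forall fun x => ?_)
  rw [pot_ext hUm hfin, Real.norm_eq_abs]
  exact (abs_real_inner_le_norm _ _).trans (mul_le_mul_of_nonneg_right (hM x) (norm_nonneg _))

/-- the potential operator on `L²(U)` -/
noncomputable def Tlin (hUm : MeasurableSet U) (hfin : volume U ≠ ⊤) :
    Lp ℝ 2 (volume.restrict U) →ₗ[ℝ] Lp ℝ 2 (volume.restrict U) where
  toFun u := (pot_memLp hUm hfin u).toLp
  map_add' u v := by
    rw [← MemLp.toLp_add]
    congr 1
    funext x
    rw [Pi.add_apply, pot_ext hUm hfin, pot_ext hUm hfin, pot_ext hUm hfin, inner_add_right]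
  map_smul' a u := by
    rw [RingHom.id_apply, ← MemLp.toLp_const_smul]
    congr 1
    funext x
    rw [Pi.smul_apply, pot_ext hUm hfin, pot_ext hUm hfin, inner_smul_right, smul_eq_mul]

lemma Tlin_bound (hUm : MeasurableSet U) (hfin : volume U ≠ ⊤) :
    ∃ C : ℝ, ∀ u, ‖Tlin hUm hfin u‖ ≤ C * ‖u‖ := by
  have : IsFiniteMeasure (volume.restrict U) := ⟨by
    rw [Measure.restrict_apply_univ]; exact hfin.lt_top⟩
  obtain ⟨M, hM0, hM⟩ := norm_ker_le hfin
  refine ⟨(measureUnivNNReal (volume.restrict U) : ℝ) ^ ((2:ℝ≥0∞).toReal⁻¹) * M, fun u => ?_⟩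
  have h1 : ∀ᵐ x ∂(volume.restrict U), ‖(Tlin hUm hfin u : E3 → ℝ) x‖ ≤ M * ‖u‖ := by
    filter_upwards [(pot_memLp hUm hfin u).coeFn_toLp] with x hx
    rw [show (Tlin hUm hfin u : E3 → ℝ) x = pot (ext U u) x from hx, pot_ext hUm hfin,
      Real.norm_eq_abs]
    exact (abs_real_inner_le_norm _ _).trans (mul_le_mul_of_nonneg_right (hM x) (norm_nonneg _))
  have h2 := Lp.norm_le_of_ae_bound (by positivity : 0 ≤ M * ‖u‖) h1
  rw [mul_assoc]
  exact h2

/-- the potential operator on `L²(U)` -/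
noncomputable def Tc (hUm : MeasurableSet U) (hfin : volume U ≠ ⊤) :
    Lp ℝ 2 (volume.restrict U) →L[ℝ] Lp ℝ 2 (volume.restrict U) :=
  (Tlin hUm hfin).mkContinuous (Classical.choose (Tlin_bound hUm hfin))
    (Classical.choose_spec (Tlin_bound hUm hfin))

lemma Tc_ae (hUm : MeasurableSet U) (hfin : volume U ≠ ⊤) (u : Lp ℝ 2 (volume.restrict U)) :
    (Tc hUm hfin u : E3 → ℝ) =ᵐ[volume.restrict U] pot (ext U u) :=
  (pot_memLp hUm hfin u).coeFn_toLp

lemma inner_Tc (hUm : MeasurableSet U) (hfin : volume U ≠ ⊤) (u v : Lp ℝ 2 (volume.restrict U)) :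
    inner ℝ (Tc hUm hfin u) v = ∫ x, ext U v x * pot (ext U u) x := by
  rw [L2.inner_def]
  have e : (fun x => ext U v x * pot (ext U u) x) = U.indicator (fun x => v x * pot (ext U u) x) := by
    funext x
    unfold ext
    by_cases hx : x ∈ U
    · rw [indicator_of_mem hx, indicator_of_mem hx]
    · rw [indicator_of_notMem hx, indicator_of_notMem hx, zero_mul]
  rw [e, integral_indicator hUm]
  refine integral_congr_ae ?_
  filter_upwards [Tc_ae hUm hfin u] with x hx
  rw [hx]
  simp only [RCLike.inner_apply, conj_trivial]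

lemma Tc_symm (hUm : MeasurableSet U) (hfin : volume U ≠ ⊤) (u v : Lp ℝ 2 (volume.restrict U)) :
    inner ℝ (Tc hUm hfin u) v = inner ℝ (Tc hUm hfin v) u := by
  rw [inner_Tc, inner_Tc]
  exact TF_E1_symm _ _ (ext_nice hUm hfin v) (ext_nice hUm hfin u)

lemma Tc_pos (hUm : MeasurableSet U) (hfin : volume U ≠ ⊤) (u : Lp ℝ 2 (volume.restrict U)) :
    0 ≤ inner ℝ (Tc hUm hfin u) u := by
  rw [inner_Tc, ← TF_E1_dbl]
  exact coulomb_pd _ (ext_nice hUm hfin u)

end

end Pool.Agent.U591.HS
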