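import Pool.Agent.U591.HS.Exist

/-!
# Hollow solids: existence of the constrained equilibrium density, conclusion
-/

set_option autoImplicit false

open MeasureTheory Set Filter Topology Metric
open scoped RealInnerProductSpace ENNReal

namespace Pool.Agent.U591.HS

open Pool.Agent.Helper557.TFP

theorem exists_obst {U : Set E3} (hUm : MeasurableSet U) (hfin : volume U ≠ ⊤) (c : ℝ) :
    ∃ f : E3 → ℝ, Obst U c f := by
  have : IsFiniteMeasure (volume.restrict U) := ⟨by
    rw [Measure.restrict_apply_univ]; exact hfin.lt_top⟩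
  set μ : Measure E3 := volume.restrict U with hμ
  set one : Lp ℝ 2 μ := (memLp_const (1:ℝ)).toLp with hone
  have hone_ae : (one : E3 → ℝ) =ᵐ[μ] fun _ => (1:ℝ) := (memLp_const (1:ℝ)).coeFn_toLp
  set K : Set (Lp ℝ 2 μ) := Icc 0 one with hK
  have hKiff : ∀ u : Lp ℝ 2 μ, u ∈ K ↔ ∀ᵐ x ∂μ, 0 ≤ u x ∧ u x ≤ 1 := by
    intro u
    rw [hK, mem_Icc, ← Lp.coeFn_le, ← Lp.coeFn_le]
    constructor
    · rintro ⟨h1, h2⟩
      filter_upwards [h1, h2, hone_ae, Lp.coeFn_zero ℝ 2 μ] with x a1 a2 a3 a4
      rw [a3] at a2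
      rw [a4] at a1
      exact ⟨a1, a2⟩
    · intro h
      constructor
      · filter_upwards [h, Lp.coeFn_zero ℝ 2 μ] with x a1 a4
        rw [a4]; exact a1.1
      · filter_upwards [h, hone_ae] with x a1 a3
        rw [a3]; exact a1.2
  have hKne : K.Nonempty := ⟨0, by
    rw [hKiff]
    filter_upwards [Lp.coeFn_zero ℝ 2 μ] with x hx
    rw [hx]; simp⟩
  have hKcl : IsClosed K := isClosed_Icc
  have hKconv : Convex ℝ K := by
    intro u hu v hv a b ha hb hab
    rw [hKiff] at hu hv ⊢
    filter_upwards [hu, hv, Lp.coeFn_add (a • u) (b • v), Lp.coeFn_smul a u, Lp.coeFn_smul b v]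
      with x h1 h2 h3 h4 h5
    rw [h3, Pi.add_apply, h4, h5, Pi.smul_apply, Pi.smul_apply, smul_eq_mul, smul_eq_mul]
    constructor
    · have := mul_nonneg ha h1.1
      have := mul_nonneg hb h2.1
      linarith
    · have := mul_le_mul_of_nonneg_left h1.2 ha
      have := mul_le_mul_of_nonneg_left h2.2 hb
      linarith
  have hKb : ∀ u ∈ K, ‖u‖ ≤ (measureUnivNNReal μ : ℝ) ^ ((2:ℝ≥0∞).toReal⁻¹) * 1 := by
    intro u hu
    rw [hKiff] at hu
    refine Lp.norm_le_of_ae_bound (by norm_num) ?_
    filter_upwards [hu] with x hx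
    rw [Real.norm_eq_abs, abs_le]
    constructor <;> linarith [hx.1, hx.2]
  obtain ⟨f0, hf0K, hvar⟩ := exists_variational hKne hKconv hKcl hKb (Tc hUm hfin) (c • one)
    (Tc_symm hUm hfin) (Tc_pos hUm hfin)
  have hf0 := (hKiff f0).1 hf0K
  set V : E3 → ℝ := pot (ext U f0) with hV
  have hVc : Continuous V := pot_continuous (ext_nice hUm hfin f0)
  have hf0m : Measurable (f0 : E3 → ℝ) := (Lp.stronglyMeasurable f0).measurable
  -- the competitor
  set G : E3 → ℝ := fun x => if V x < c then 1 else if c < V x then 0 else f0 x with hG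
  have hGm : Measurable G := by
    refine Measurable.ite (measurableSet_lt hVc.measurable measurable_const) measurable_const ?_
    exact Measurable.ite (measurableSet_lt measurable_const hVc.measurable) measurable_const hf0m
  have hG01 : ∀ᵐ x ∂μ, 0 ≤ G x ∧ G x ≤ 1 := by
    filter_upwards [hf0] with x hx
    simp only [hG]
    split_ifs
    · norm_num
    · norm_num
    · exact hx
  have hGL : MemLp G 2 μ := by
    refine MemLp.of_bound hGm.aestronglyMeasurable 1 ?_
    filter_upwards [hG01] with x hx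
    rw [Real.norm_eq_abs, abs_le]
    constructor <;> linarith [hx.1, hx.2]
  set g : Lp ℝ 2 μ := hGL.toLp with hg
  have hg_ae : (g : E3 → ℝ) =ᵐ[μ] G := hGL.coeFn_toLp
  have hgK : g ∈ K := by
    rw [hKiff]
    filter_upwards [hG01, hg_ae] with x h1 h2
    rw [h2]; exact h1
  have h1 := hvar g hgK
  rw [L2.inner_def] at h1
  have hae1 : ∀ᵐ x ∂μ, inner ℝ ((Tc hUm hfin f0 - c • one : Lp ℝ 2 μ) x) ((g - f0 : Lp ℝ 2 μ) x) =
      (V x - c) * (G x - f0 x) := by
    filter_upwards [Lp.coeFn_sub (Tc hUm hfin f0) (c • one), Lp.coeFn_sub g f0,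
      Lp.coeFn_smul c one, hone_ae, hg_ae, Tc_ae hUm hfin f0] with x a1 a2 a3 a4 a5 a6
    rw [a1, a2, Pi.sub_apply, Pi.sub_apply, a3, Pi.smul_apply, a4, a5, a6]
    simp only [RCLike.inner_apply, conj_trivial, smul_eq_mul, mul_one]
    rw [mul_comm]
  rw [integral_congr_ae hae1] at h1
  have hnp : ∀ᵐ x ∂μ, (V x - c) * (G x - f0 x) ≤ 0 := by
    filter_upwards [hf0] with x hx
    simp only [hG]
    split_ifs with ha hb
    · nlinarith [hx.2]
    · nlinarith [hx.1]
    · simp
  have hint : Integrable (fun x => (V x - c) * (G x - f0 x)) μ := by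
    have hL : MemLp (fun x => V x - c) 2 μ := (pot_memLp hUm hfin f0).sub (memLp_const c)
    have hR : MemLp (fun x => G x - f0 x) 2 μ := hGL.sub (Lp.memLp f0)
    exact hL.integrable_mul hR
  have hzero : ∀ᵐ x ∂μ, (V x - c) * (G x - f0 x) = 0 := by
    have h2 : ∫ x, -((V x - c) * (G x - f0 x)) ∂μ = 0 := by
      refine le_antisymm ?_ ?_
      · rw [integral_neg]; linarith
      · refine integral_nonneg_of_ae ?_
        filter_upwards [hnp] with x hx
        simpa using hx
    have h3 : (fun x => -((V x - c) * (G x - f0 x))) =ᵐ[μ] 0 := by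
      rw [← integral_eq_zero_iff_of_nonneg_ae]
      · exact h2
      · filter_upwards [hnp] with x hx
        simpa using hx
      · exact hint.neg
    filter_upwards [h3] with x hx
    simpa using hx
  -- the measurable representative
  set f : E3 → ℝ := U.indicator (fun x => max 0 (min 1 (f0 x))) with hf
  have hfae : f =ᵐ[volume] ext U f0 := by
    have h2 : ∀ᵐ x, x ∈ U → 0 ≤ f0 x ∧ f0 x ≤ 1 := (ae_restrict_iff' hUm).1 hf0
    filter_upwards [h2] with x hx
    simp only [hf, ext]
    by_cases hxU : x ∈ U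
    · rw [indicator_of_mem hxU, indicator_of_mem hxU]
      obtain ⟨h3, h4⟩ := hx hxU
      rw [min_eq_right h4, max_eq_right h3]
    · rw [indicator_of_notMem hxU, indicator_of_notMem hxU]
  have hpot : pot f = V := by
    funext x
    rw [hV]
    unfold pot
    refine integral_congr_ae ?_
    filter_upwards [hfae] with y hy
    rw [hy]
  have hmain : ∀ᵐ x, x ∈ U → (V x - c) * (G x - f0 x) = 0 := (ae_restrict_iff' hUm).1 hzero
  refine ⟨f, ?_, ?_, ?_, ?_, ?_, ?_⟩
  · exact (measurable_const.max (measurable_const.min hf0m)).indicator hUm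
  · intro x
    exact indicator_nonneg (fun y _ => le_max_left _ _) x
  · intro x
    simp only [hf]
    by_cases hxU : x ∈ U
    · rw [indicator_of_mem hxU]
      exact max_le (by norm_num) (min_le_left _ _)
    · rw [indicator_of_notMem hxU]; norm_num
  · intro x hx
    exact indicator_of_notMem hx _
  · filter_upwards [hmain, hfae] with x h2 h3 hxU hlt
    rw [hpot] at hlt
    have h4 := h2 hxU
    have h5 : V x - c ≠ 0 := by linarith
    have h6 := (mul_eq_zero.1 h4).resolve_left h5
    simp only [hG, if_pos hlt] at h6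
    rw [h3]
    unfold ext
    rw [indicator_of_mem hxU]
    linarith
  · filter_upwards [hmain, hfae] with x h2 h3 hlt
    rw [hpot] at hlt
    by_cases hxU : x ∈ U
    · have h4 := h2 hxU
      have h5 : V x - c ≠ 0 := by linarith
      have h6 := (mul_eq_zero.1 h4).resolve_left h5
      have h7 : ¬ V x < c := not_lt.2 hlt.le
      simp only [hG, if_neg h7, if_pos hlt] at h6
      rw [h3]
      unfold ext
      rw [indicator_of_mem hxU]
      linarith
    · exact indicator_of_notMem hxU _

end Pool.Agent.U591.HS
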