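import Pool.Agent.U591.HS.Base

/-!
# Hollow solids: maximum principle and reflection
-/

set_option autoImplicit false

open MeasureTheory Set Filter Topology Metric
open scoped RealInnerProductSpace ENNReal

namespace Pool.Agent.U591.HS

open Pool.Agent.Helper557.TFP

lemma exists_max_closed {F : E3 → ℝ} (hF : Continuous F)
    (hdec : ∀ ε : ℝ, 0 < ε → ∃ M : ℝ, ∀ x : E3, M ≤ ‖x‖ → |F x| ≤ ε) {C : Set E3}
    (hC : IsClosed C) {x0 : E3} (hx0 : x0 ∈ C) (h0 : 0 < F x0) :
    ∃ x1 ∈ C, F x0 ≤ F x1 ∧ (∀ x ∈ C, F x ≤ F x1) ∧ IsCompact {x | x ∈ C ∧ F x = F x1} := by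
  obtain ⟨M, hM⟩ := hdec (F x0 / 2) (by positivity)
  have hK : IsCompact (C ∩ closedBall (0:E3) (max M ‖x0‖)) :=
    (isCompact_closedBall _ _).inter_left hC
  have hx0K : x0 ∈ C ∩ closedBall (0:E3) (max M ‖x0‖) :=
    ⟨hx0, by rw [mem_closedBall_zero_iff]; exact le_max_right _ _⟩
  obtain ⟨x1, hx1, hmax⟩ := hK.exists_isMaxOn ⟨x0, hx0K⟩ hF.continuousOn
  have h01 : F x0 ≤ F x1 := hmax hx0K
  have hout : ∀ x, x ∉ closedBall (0:E3) (max M ‖x0‖) → F x < F x1 := by
    intro x hx
    rw [mem_closedBall_zero_iff, not_le] at hx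
    have := hM x ((le_max_left _ _).trans hx.le)
    have := (abs_le.mp this).2
    linarith
  refine ⟨x1, hx1.1, h01, ?_, ?_⟩
  · intro x hx
    by_cases hxb : x ∈ closedBall (0:E3) (max M ‖x0‖)
    · exact hmax ⟨hx, hxb⟩
    · exact (hout x hxb).le
  · refine (isCompact_closedBall (0:E3) (max M ‖x0‖)).of_isClosed_subset ?_ ?_
    · exact hC.inter (isClosed_eq hF continuous_const)
    · rintro x ⟨_, hx2⟩
      by_contra hxb
      exact absurd hx2 (hout x hxb).ne

/-- `f` solves the constrained equilibrium problem at level `c` on `U`. -/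
structure Obst (U : Set E3) (c : ℝ) (f : E3 → ℝ) : Prop where
  meas : Measurable f
  nonneg : ∀ x, 0 ≤ f x
  le_one : ∀ x, f x ≤ 1
  zero : ∀ x, x ∉ U → f x = 0
  low : ∀ᵐ x, x ∈ U → pot f x < c → f x = 1
  high : ∀ᵐ x, c < pot f x → f x = 0

lemma Obst.nice {U : Set E3} (hU : Bornology.IsBounded U) {c : ℝ} {f : E3 → ℝ} (h : Obst U c f) :
    Nice f := by
  refine nice_of_bdd hU h.meas (B := 1) (fun x => ?_) h.zero
  rw [abs_of_nonneg (h.nonneg x)]
  exact h.le_one x

lemma Obst.pot_le {U : Set E3} (hU : Bornology.IsBounded U) {c : ℝ} (hc : 0 < c) {f : E3 → ℝ}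
    (h : Obst U c f) (x : E3) : pot f x ≤ c := by
  by_contra hx
  push Not at hx
  have hN := h.nice hU
  have hcont := pot_continuous hN
  obtain ⟨x1, _, h01, hmax, hcp⟩ := exists_max_closed hcont (fun ε hε => pot_decay hN hε)
    isClosed_univ (mem_univ x) (hc.trans hx)
  refine max_false hN (W := univ) (m := pot f x1) hmax ⟨x1, mem_univ _, rfl⟩ hcp ?_
  intro y _ hy
  have hyc : c < pot f y := by rw [hy]; linarith
  obtain ⟨r, hr, hball⟩ := Metric.isOpen_iff.mp (isOpen_lt continuous_const hcont) y hyc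
  refine ⟨r, hr, subset_univ _, ?_⟩
  filter_upwards [h.high] with z hz hzb
  exact (hz (hball hzb)).le

/-- The reflection lemma. -/
lemma refl_le {f : E3 → ℝ} (hf : Nice f) (n : E3) (hn : ‖n‖ = 1) (t : ℝ)
    (hG : ∀ᵐ y, t < ⟪n, y⟫ → pot f (refl n t y) < pot f y → f y ≤ f (refl n t y)) :
    ∀ x, t < ⟪n, x⟫ → pot f x ≤ pot f (refl n t x) := by
  obtain ⟨h1, h2, h3, h4, h5, h6⟩ := refl_basic n hn t
  intro x0 hx0
  by_contra hcon
  push Not at hcon
  have hfr : Nice (fun y => f (refl n t y)) := by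
    refine ⟨hf.1.comp h5, ?_, ?_⟩
    · exact h6.integrable_comp_of_integrable hf.2.1
    · exact h6.integrable_comp_of_integrable hf.2.2
  set G : E3 → ℝ := fun y => f y - f (refl n t y) with hGdef
  have hGN : Nice G := by
    refine ⟨hf.1.sub hfr.1, hf.2.1.sub hfr.2.1, ?_⟩
    have hb : ∀ x, |G x| ^ (5/3 : ℝ) ≤ 2 ^ (5/3 : ℝ) * (|f x| ^ (5/3:ℝ) + |f (refl n t x)| ^ (5/3:ℝ)) := by
      intro x
      have e1 : |G x| ≤ 2 * max |f x| |f (refl n t x)| := by
        have := abs_sub (f x) (f (refl n t x))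
        have h7 := le_max_left |f x| |f (refl n t x)|
        have h8 := le_max_right |f x| |f (refl n t x)|
        calc |G x| = |f x - f (refl n t x)| := rfl
          _ ≤ |f x| + |f (refl n t x)| := this
          _ ≤ _ := by linarith
      calc |G x| ^ (5/3 : ℝ) ≤ (2 * max |f x| |f (refl n t x)|) ^ (5/3:ℝ) :=
            Real.rpow_le_rpow (abs_nonneg _) e1 (by norm_num)
        _ = 2 ^ (5/3 : ℝ) * (max |f x| |f (refl n t x)|) ^ (5/3:ℝ) :=
            Real.mul_rpow (by norm_num) (le_max_of_le_left (abs_nonneg _))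
        _ ≤ _ := by
            gcongr
            rcases le_total |f x| |f (refl n t x)| with h | h
            · rw [max_eq_right h]
              have := Real.rpow_nonneg (abs_nonneg (f x)) (5/3:ℝ)
              linarith
            · rw [max_eq_left h]
              have := Real.rpow_nonneg (abs_nonneg (f (refl n t x))) (5/3:ℝ)
              linarith
    refine Integrable.mono' ((hf.2.2.add hfr.2.2).const_mul (2 ^ (5/3 : ℝ)))
      ((hf.1.sub hfr.1).abs.pow_const _).aestronglyMeasurable (Eventually.of_forall fun x => ?_)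
    rw [Real.norm_of_nonneg (Real.rpow_nonneg (abs_nonneg _) _)]
    exact hb x
  have hD : ∀ x, pot G x = pot f x - pot f (refl n t x) := by
    intro x
    rw [← TF_E2_swap n hn t f x]
    exact TF_E1_potsub f (fun y => f (refl n t y)) hf hfr x
  have hcont := pot_continuous hGN
  have hinner : Continuous (fun x : E3 => (⟪n, x⟫ : ℝ)) := by fun_prop
  obtain ⟨x1, hx1, h01, hmax, hcp⟩ := exists_max_closed (C := {x | t ≤ ⟪n, x⟫}) hcont
    (fun ε hε => pot_decay hGN hε) (isClosed_le continuous_const hinner) (x0 := x0) hx0.le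
    (by rw [hD]; linarith)
  have hpos : 0 < pot G x1 := lt_of_lt_of_le (by rw [hD]; linarith) h01
  have hside : ∀ x, t ≤ ⟪n, x⟫ → pot G x = pot G x1 → t < ⟪n, x⟫ := by
    intro x hx hxm
    rcases hx.lt_or_eq with h | h
    · exact h
    · exfalso
      have := hD x
      rw [h4 x h.symm, sub_self] at this
      rw [this] at hxm
      linarith
  have hset : {x | x ∈ {x : E3 | t < ⟪n, x⟫} ∧ pot G x = pot G x1} =
      {x | x ∈ {x : E3 | t ≤ ⟪n, x⟫} ∧ pot G x = pot G x1} := by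
    ext x
    constructor
    · rintro ⟨ha, hb⟩
      exact ⟨(show t ≤ ⟪n, x⟫ from (show t < ⟪n, x⟫ from ha).le), hb⟩
    · rintro ⟨ha, hb⟩
      exact ⟨hside x ha hb, hb⟩
  refine max_false hGN (W := {x | t < ⟪n, x⟫}) (m := pot G x1) (fun x hx => hmax x (show t ≤ ⟪n, x⟫ from (show t < ⟪n, x⟫ from hx).le))
    ⟨x1, hside x1 hx1 rfl, rfl⟩ (by rw [hset]; exact hcp) ?_
  intro y hyW hym
  have hopen : IsOpen ({x : E3 | t < ⟪n, x⟫} ∩ {x | 0 < pot G x}) :=
    (isOpen_lt continuous_const hinner).inter (isOpen_lt continuous_const hcont)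
  obtain ⟨r, hr, hball⟩ := Metric.isOpen_iff.mp hopen y ⟨hyW, by
    show 0 < pot G y
    rw [hym]; exact hpos⟩
  refine ⟨r, hr, fun z hz => (hball hz).1, ?_⟩
  filter_upwards [hG] with z hz hzb
  obtain ⟨hz1, hz2⟩ := hball hzb
  have hz2' : 0 < pot G z := hz2
  rw [hD] at hz2'
  have := hz hz1 (by linarith)
  show f z - f (refl n t z) ≤ 0
  linarith

end Pool.Agent.U591.HS
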